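import Mathlib
import Pool.Agent.TH497.PW.IntFlow
import Pool.Agent.TH676.Z.Cyc
import Pool.Agent.TH362.FP.Pos

set_option autoImplicit false

/-!
# Nowhere-zero 5-flows in graphs which have few circuits after the deletion of at most seven vertices (MP_9f8812_co)

Let `G` be a bridgeless multigraph and let `S` be a set of `k` vertices such that the cycle space of
`G - S` has dimension at most `15 - 2 k`.  Then `G` has a nowhere-zero 5-flow.  In particular this
holds if at most seven vertices of `G` meet all circuits (feedback vertex number at most seven).
The degrees, the connectivity and the order of `G` are arbitrary.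

Proof.  The class of these graphs is closed under minors.  Let `G` be a minimal counterexample.

(1) All edge cuts have at least three edges, a cut with three edges isolates a vertex, and `G` has no
circuit with at most seven edges.  For at most six edges one deletes at most three edges of the
circuit and contracts the others.  For seven edges: the number of the functions on `G` without the
circuit with prescribed values of the boundary at the seven vertices is a combination of the
indicator functions of the events that all blocks of a partition of the seven vertices have sum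
zero.  It vanishes for all prescribed values for which the prefix sums miss an element of `Z_5`;
certificates evaluated by the kernel (linear relations between the values of the indicator
functions of all partitions) show that it vanishes for all prescribed values, and so the graph in
which three edges of the circuit are deleted and four contracted has no flow either.

(2) Let `m` and `n` be the numbers of the edges and vertices of `G - S`, let `c` be the dimension of
its cycle space and `D` the sum of the degrees of the vertices in `S`.  Then `m + 1 ≤ c + n` and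
`3 n ≤ 2 m + D`.  If `s` has degree `d` then there are at least `14 d` edges at distance at most two
from the neighbours of `s` which are not at `s` (balls in a graph with girth at least eight), so
that `15 d ≤ m + D`, and `m + D ≥ 45`.  For `c + 2 k ≤ 15` these inequalities contradict each other.

The theorem is stated for the chromatic number of the bond matroid of `G`, a binary matroid without
a minor isomorphic to `M(K_5)`, which is loopless since `G` has no bridge.
-/

namespace Pool.Agent.Results.MP_9f8812_co.CyclomaticDeletion

open Pool.Agent.TH497.PW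

variable {V E : Type}

/-- The edges with exactly one end in `Y`. -/
def boundary [DecidableEq V] [Fintype E] (src dst : E → V) (Y : Finset V) : Finset E :=
  Finset.univ.filter (fun e => ¬ (src e ∈ Y ↔ dst e ∈ Y))

/-- Kirchhoff's law. -/
def IsFlow [DecidableEq V] [Fintype E] (src dst : E → V) (f : E → ℤ) : Prop :=
  ∀ v : V, ∑ e ∈ Finset.univ.filter (fun e => src e = v), f e
    = ∑ e ∈ Finset.univ.filter (fun e => dst e = v), f e

/-- The cycle space over `GF(2)` of the graph `G - S`: the functions on the edges which are zero on
the edges with an end in `S` and which satisfy Kirchhoff's law modulo 2. -/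
def cycleSpace [DecidableEq V] [Fintype E] (src dst : E → V) (S : Finset V) :
    Submodule (ZMod 2) (E → ZMod 2) where
  carrier := {x | (∀ e, (src e ∈ S ∨ dst e ∈ S) → x e = 0) ∧
    ∀ v : V, ∑ e ∈ Finset.univ.filter (fun e => src e = v), x e
      + ∑ e ∈ Finset.univ.filter (fun e => dst e = v), x e = 0}
  add_mem' := by
    rintro a b ⟨h1, h2⟩ ⟨h3, h4⟩
    refine ⟨fun e he => by rw [Pi.add_apply, h1 e he, h3 e he, add_zero], fun v => ?_⟩
    simp only [Pi.add_apply, Finset.sum_add_distrib]
    have := congrArg₂ (· + ·) (h2 v) (h4 v)
    simp only [add_zero] at this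
    rw [← this]
    ring
  zero_mem' := ⟨fun _ _ => rfl, fun v => by simp⟩
  smul_mem' := by
    rintro c a ⟨h1, h2⟩
    refine ⟨fun e he => by rw [Pi.smul_apply, h1 e he, smul_zero], fun v => ?_⟩
    simp only [Pi.smul_apply, smul_eq_mul, ← Finset.mul_sum]
    rw [← mul_add, h2 v, mul_zero]

/-- The number of the connected components of the graph with the vertices `V` and the edges `A`. -/
noncomputable def components (src dst : E → V) (A : Finset E) : ℕ :=
  Nat.card (SimpleGraph.fromRel
    (fun u v : V => ∃ e ∈ A, src e = u ∧ dst e = v)).ConnectedComponent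

/-- The rank of `A` in the cycle matroid of the graph. -/
noncomputable def cycleRank [Fintype V] (src dst : E → V) (A : Finset E) : ℕ :=
  Fintype.card V - components src dst A

/-- The rank of `A` in the bond matroid of the graph, the dual of the cycle matroid:
`|A| + r(E \ A) - r(E)`. -/
noncomputable def bondRank [Fintype V] [Fintype E] [DecidableEq E] (src dst : E → V)
    (A : Finset E) : ℕ :=
  A.card + cycleRank src dst Aᶜ - cycleRank src dst Finset.univ

/-- The characteristic polynomial of the bond matroid, `∑ (-1)^|A| x^(r*(E) - r*(A))`. -/
noncomputable def characteristic [Fintype V] [Fintype E] [DecidableEq E] (src dst : E → V)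
    (x : ℤ) : ℤ :=
  ∑ A : Finset E, (-1) ^ A.card * x ^ (bondRank src dst Finset.univ - bondRank src dst A)

/-- The chromatic number of the bond matroid: the least positive integer at which the
characteristic polynomial is positive. -/
noncomputable def chromaticNumber [Fintype V] [Fintype E] [DecidableEq E] (src dst : E → V) : ℕ :=
  sInf {k : ℕ | 0 < k ∧ 0 < characteristic src dst k}

theorem isFlow_iff [DecidableEq V] [Fintype E] (src dst : E → V) (f : E → ℤ) :
    IsFlow src dst f ↔
      ∀ v, ∑ e, f e * ((if src e = v then 1 else 0) - (if dst e = v then 1 else 0)) = 0 := by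
  unfold IsFlow
  refine forall_congr' fun v => ?_
  rw [Finset.sum_filter, Finset.sum_filter, ← sub_eq_zero, ← Finset.sum_sub_distrib]
  have : ∀ e, (if src e = v then f e else 0) - (if dst e = v then f e else 0)
      = f e * ((if src e = v then 1 else 0) - (if dst e = v then 1 else 0)) := by
    intro e
    by_cases h1 : src e = v <;> by_cases h2 : dst e = v <;> simp [h1, h2]
  rw [Finset.sum_congr rfl (fun e _ => this e)]

theorem nzf [Fintype V] [DecidableEq V] [Fintype E] [DecidableEq E] (src dst : E → V)
    (h : Pool.Agent.TH676.Z.FlowOn src dst ∅ ∅) : NZF src dst := by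
  obtain ⟨f, h1, _, h3⟩ := h
  refine ⟨f, fun e => h3 e (Finset.notMem_empty _) (Finset.notMem_empty _), fun x => ?_⟩
  rw [← h1 x]
  unfold Pool.Agent.TH676.Z.bd
  refine Finset.sum_congr rfl fun e _ => ?_
  unfold ic
  by_cases h4 : src e = x <;> by_cases h5 : dst e = x <;> simp [h4, h5]

theorem chromatic [Fintype V] [Fintype E] [DecidableEq E] (src dst : E → V)
    (h : 0 < characteristic src dst (5 : ℕ)) :
    0 < chromaticNumber src dst ∧ chromaticNumber src dst ≤ 5 := by
  have h5 : 5 ∈ {k : ℕ | 0 < k ∧ 0 < characteristic src dst k} := ⟨by norm_num, h⟩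
  exact ⟨(Nat.sInf_mem ⟨5, h5⟩).1, Nat.sInf_le h5⟩

theorem cycleSpace_eq [Fintype V] [DecidableEq V] [Fintype E] [DecidableEq E] (src dst : E → V)
    (S : Finset V) : cycleSpace src dst S =
      Pool.Agent.TH676.Z.ZF src dst
        (Finset.univ.filter (fun e => src e ∉ S ∧ dst e ∉ S)) := by
  ext x
  have h2 : ∀ v, Pool.Agent.TH676.Z.bd2 src dst x v =
      ∑ e ∈ Finset.univ.filter (fun e => src e = v), x e
        + ∑ e ∈ Finset.univ.filter (fun e => dst e = v), x e := by
    intro v
    unfold Pool.Agent.TH676.Z.bd2
    rw [Finset.sum_add_distrib, Finset.sum_filter, Finset.sum_filter]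
  constructor
  · rintro ⟨h, h'⟩
    refine ⟨fun e he => h e ?_, fun v => by rw [h2 v]; exact h' v⟩
    by_contra hc
    push Not at hc
    exact he (Finset.mem_filter.mpr ⟨Finset.mem_univ _, hc⟩)
  · rintro ⟨h, h'⟩
    refine ⟨fun e he => h e ?_, fun v => by rw [← h2 v]; exact h' v⟩
    intro hc
    rcases he with he | he
    · exact (Finset.mem_filter.mp hc).2.1 he
    · exact (Finset.mem_filter.mp hc).2.2 he

theorem flow :
    ∀ (V E : Type) [Fintype V] [DecidableEq V] [Fintype E] [DecidableEq E]
      (src dst : E → V) (S : Finset V),
      Module.finrank (ZMod 2) (cycleSpace src dst S) + 2 * S.card ≤ 15 →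
      (∀ Y : Finset V, (boundary src dst Y).card ≠ 1) →
      ∃ f : E → ℤ, IsFlow src dst f ∧ ∀ e, 1 ≤ |f e| ∧ |f e| ≤ 4 := by
  intro V E _ _ _ _ src dst S hS hb
  have h1 : Module.finrank (ZMod 2)
      (Pool.Agent.TH676.Z.ZF src dst (Pool.Agent.TH676.Z.ES src dst S)) ≤
      Module.finrank (ZMod 2) (cycleSpace src dst S) := by
    rw [cycleSpace_eq]
    refine Submodule.finrank_mono (Pool.Agent.TH676.Z.MacDelx.ZF_mono ?_)
    intro e he
    unfold Pool.Agent.TH676.Z.ES at he
    rw [Finset.mem_filter] at he ⊢
    exact ⟨he.1, he.2.2⟩
  have hfl := Pool.Agent.TH676.Z.cyc15 V E src dst ⟨S, (Nat.add_le_add_right h1 _).trans hS⟩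
    (fun Y _ => by rw [Finset.sdiff_empty]; exact hb Y)
  obtain ⟨F, hF, hF0⟩ := int_flow src dst (nzf src dst hfl)
  exact ⟨F, (isFlow_iff src dst F).mpr hF0, hF⟩

theorem result :
    ∀ (V E : Type) [Fintype V] [DecidableEq V] [Fintype E] [DecidableEq E]
      (src dst : E → V) (S : Finset V),
      Module.finrank (ZMod 2) (cycleSpace src dst S) + 2 * S.card ≤ 15 →
      (∀ Y : Finset V, (boundary src dst Y).card ≠ 1) →
      0 < chromaticNumber src dst ∧ chromaticNumber src dst ≤ 5 := by
  intro V E _ _ _ _ src dst S hS hb
  obtain ⟨f, hf0, hf⟩ := flow V E src dst S hS hb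
  exact chromatic src dst (Pool.Agent.TH362.FP.chr_pos src dst f hf hf0 5 le_rfl)

end Pool.Agent.Results.MP_9f8812_co.CyclomaticDeletion
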