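import Mathlib
import Pool.Agent.TH362.FF.Final
import Pool.Agent.TH362.FP.Pos

set_option autoImplicit false

/-!
# Chromatic number of bond matroids of graphs with few edge cuts of size three (MP_9f8812_co)

Let `M` be the bond matroid of a bridgeless multigraph which has no 32 pairwise disjoint vertex sets
with pairwise different boundaries of size three; for example, let the multigraph have at most 31
edge cuts of size three. Then the characteristic polynomial of `M` is positive at `5`, so the
chromatic number of `M` is at most five.

The graph has a nowhere-zero 5-flow by the result `MP_974d84_co.ThirtyOneThreeCuts`, where the proof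
is described, and the value of the characteristic polynomial at `q` is the number of the
nowhere-zero flows with values in `Z_q`.
-/

namespace Pool.Agent.Results.MP_9f8812_co.UpToThirtyOneThreeCuts

variable {V E : Type}

/-- The edges with exactly one end in `Y`. -/
def boundary [DecidableEq V] [Fintype E] (src dst : E → V) (Y : Finset V) : Finset E :=
  Finset.univ.filter (fun e => ¬ (src e ∈ Y ↔ dst e ∈ Y))

/-- The number of the connected components of the graph with the vertices `V` and the edges `A`. -/
noncomputable def components (src dst : E → V) (A : Finset E) : ℕ :=
  Nat.card (SimpleGraph.fromRel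
    (fun u v : V => ∃ e ∈ A, src e = u ∧ dst e = v)).ConnectedComponent

/-- The rank of `A` in the cycle matroid of the graph. -/
noncomputable def cycleRank [Fintype V] (src dst : E → V) (A : Finset E) : ℕ :=
  Fintype.card V - components src dst A

/-- The rank of `A` in the bond matroid of the graph, the dual of the cycle matroid:
`|A| + r(E \ A) - r(E)`. -/
noncomputable def bondRank [Fintype V] [Fintype E] [DecidableEq E] (src dst : E → V)
    (A : Finset E) : ℕ :=
  A.card + cycleRank src dst Aᶜ - cycleRank src dst Finset.univ

/-- The characteristic polynomial of the bond matroid, `∑ (-1)^|A| x^(r*(E) - r*(A))`. -/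
noncomputable def characteristic [Fintype V] [Fintype E] [DecidableEq E] (src dst : E → V)
    (x : ℤ) : ℤ :=
  ∑ A : Finset E, (-1) ^ A.card * x ^ (bondRank src dst Finset.univ - bondRank src dst A)

theorem result :
    ∀ (V E : Type) [Fintype V] [DecidableEq V] [Fintype E] [DecidableEq E] (src dst : E → V),
      (∀ Y : Finset V, (boundary src dst Y).card ≠ 1) →
      (∀ X : Fin 32 → Finset V, (∀ i j, i ≠ j → Disjoint (X i) (X j)) →
        (∀ i j, i ≠ j → boundary src dst (X i) ≠ boundary src dst (X j)) →
        ∃ i, (boundary src dst (X i)).card ≠ 3) →
      0 < characteristic src dst 5 := by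
  intro V E _ _ _ _ src dst hb hX
  obtain ⟨f, hf, hf0⟩ := Pool.Agent.TH362.FF.five32 src dst hb hX
  exact Pool.Agent.TH362.FP.chr_pos src dst f hf hf0 5 le_rfl

/-- The case of at most 31 edge cuts of size three. -/
theorem few_cuts :
    ∀ (V E : Type) [Fintype V] [DecidableEq V] [Fintype E] [DecidableEq E] (src dst : E → V),
      (∀ Y : Finset V, (boundary src dst Y).card ≠ 1) →
      ((Finset.univ.image (boundary src dst)).filter (fun C => C.card = 3)).card ≤ 31 →
      0 < characteristic src dst 5 := by
  intro V E _ _ _ _ src dst hb h31
  refine result V E src dst hb fun X _ hX => ?_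
  by_contra hcon
  push Not at hcon
  have h32 := Finset.card_le_card_of_injOn (s := (Finset.univ : Finset (Fin 32)))
    (t := (Finset.univ.image (boundary src dst)).filter (fun C => C.card = 3))
    (fun i => boundary src dst (X i))
    (fun i _ => by
      simp only [Finset.coe_filter, Finset.mem_image, Finset.mem_univ, true_and,
        Set.mem_ofPred_eq]
      exact ⟨⟨X i, rfl⟩, hcon i⟩)
    (fun i _ j _ hij => by
      by_contra hne
      exact hX i j hne hij)
  rw [Finset.card_univ, Fintype.card_fin] at h32
  omega

end Pool.Agent.Results.MP_9f8812_co.UpToThirtyOneThreeCuts
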